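import Pool.Agent.Helper84.HD.St
import Pool.Agent.Helper28.PC.Mert

set_option autoImplicit false

/-!
# HD module KS: the sum of `2 ^ (-Ω(k)) / k`
-/

namespace Pool.Agent.Helper24.HD

open Finset Filter Topology Pool.Agent.Helper84.HD
open Pool.Agent.Helper4.DE (C Lg LogDens IsMultClosed t D Z)

theorem hf_pos (n : ℕ) : 0 < hf n := by unfold hf; positivity

/-- the completely multiplicative function `hf k / k` -/
noncomputable def fM : ℕ →* ℝ where
  toFun k := hf k / k
  map_one' := by simp [hf]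
  map_mul' m n := by
    by_cases hm : m = 0
    · subst hm; simp
    by_cases hn : n = 0
    · subst hn; simp
    unfold hf
    rw [ArithmeticFunction.cardFactors_mul hm hn, pow_add]
    push_cast
    rw [mul_div_mul_comm]

theorem fM_apply (k : ℕ) : fM k = hf k / k := rfl

theorem fM_nonneg (k : ℕ) : 0 ≤ fM k := by
  rw [fM_apply]; exact div_nonneg (hf_pos k).le (Nat.cast_nonneg k)

theorem fM_prime {p : ℕ} (hp : p.Prime) : fM p = 1 / 2 / p := by
  rw [fM_apply]
  unfold hf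
  rw [ArithmeticFunction.cardFactors_apply_prime hp, pow_one]

theorem sq_sum (N : ℕ) : ∑ p ∈ Finset.Icc 2 N, (1 : ℝ) / (p : ℝ) ^ 2 ≤ 1 := by
  have key : ∀ n : ℕ, 1 ≤ n → ∑ p ∈ Finset.Icc 2 n, (1 : ℝ) / (p : ℝ) ^ 2 ≤ 1 - 1 / n := by
    intro n hn
    induction n, hn using Nat.le_induction with
    | base => simp
    | succ n hn ih =>
      rw [Finset.sum_Icc_succ_top (by omega)]
      have hn0 : (0 : ℝ) < n := by exact_mod_cast hn
      have h1 : (1 : ℝ) / ((n + 1 : ℕ) : ℝ) ^ 2 ≤ 1 / n - 1 / ((n + 1 : ℕ) : ℝ) := by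
        push_cast
        rw [div_sub_div _ _ hn0.ne' (by positivity), div_le_div_iff₀ (by positivity) (by positivity)]
        nlinarith
      linarith
  rcases Nat.eq_zero_or_pos N with h | h
  · subst h; simp
  · have := key N h
    have h0 : (0 : ℝ) ≤ 1 / (N : ℝ) := by positivity
    linarith

theorem one_sub_inv_le {x : ℝ} (h0 : 0 ≤ x) (h1 : x ≤ 1 / 2) :
    (1 - x)⁻¹ ≤ Real.exp (x + 2 * x ^ 2) := by
  have hpos : 0 < 1 - x := by linarith
  have h2 : (1 - x)⁻¹ = 1 + x / (1 - x) := by field_simp; ring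
  have h3 : x / (1 - x) ≤ x + 2 * x ^ 2 := by
    rw [div_le_iff₀ hpos]
    nlinarith [sq_nonneg x]
  rw [h2]
  calc 1 + x / (1 - x) ≤ Real.exp (x / (1 - x)) := by
        rw [add_comm]; exact Real.add_one_le_exp _
    _ ≤ _ := Real.exp_le_exp.2 h3

theorem hKS : StKS := by
  classical
  refine ⟨Real.exp 3, Real.exp_pos _, fun N hN => ?_⟩
  have hlt : ∀ {p : ℕ}, p.Prime → ‖fM p‖ < 1 := by
    intro p hp
    have hp2 : (2 : ℝ) ≤ p := by exact_mod_cast hp.two_le
    rw [Real.norm_eq_abs, abs_of_nonneg (fM_nonneg p), fM_prime hp, div_lt_one (by linarith)]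
    linarith
  have hsum := (EulerProduct.summable_and_hasSum_smoothNumbers_prod_primesBelow_geometric
    hlt (N + 1)).2
  -- the sum over the integers up to N
  have h1 : ∑ k ∈ Ioc 0 N, hf k / k ≤ ∏ p ∈ (N + 1).primesBelow, (1 - fM p)⁻¹ := by
    have h2 : HasSum ((N + 1).smoothNumbers.indicator (fun k => fM k))
        (∏ p ∈ (N + 1).primesBelow, (1 - fM p)⁻¹) := hasSum_subtype_iff_indicator.1 hsum
    have h3 := sum_le_hasSum (Ioc 0 N) (fun k _ => by
      by_cases hk : k ∈ (N + 1).smoothNumbers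
      · rw [Set.indicator_of_mem hk]; exact fM_nonneg k
      · rw [Set.indicator_of_notMem hk]) h2
    refine le_trans (le_of_eq (Finset.sum_congr rfl fun k hk => ?_)) h3
    rw [Finset.mem_Ioc] at hk
    rw [Set.indicator_of_mem (Nat.mem_smoothNumbers_of_lt hk.1 (by omega)), fM_apply]
  -- the product
  have h4 : ∏ p ∈ (N + 1).primesBelow, (1 - fM p)⁻¹ ≤
      Real.exp (∑ p ∈ N.primesLE, (fM p + 2 * fM p ^ 2)) := by
    rw [Real.exp_sum]
    change ∏ p ∈ N.primesLE, (1 - fM p)⁻¹ ≤ _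
    refine Finset.prod_le_prod (fun p hp => ?_) fun p hp => ?_
    · have := hlt (Nat.mem_primesLE.1 hp).2
      rw [Real.norm_eq_abs, abs_lt] at this
      exact inv_nonneg.2 (by linarith [this.2])
    · have hp' := (Nat.mem_primesLE.1 hp).2
      have hp2 : (2 : ℝ) ≤ p := by exact_mod_cast hp'.two_le
      refine one_sub_inv_le (fM_nonneg p) ?_
      rw [fM_prime hp', div_le_iff₀ (by linarith)]
      linarith
  have h5 : ∑ p ∈ N.primesLE, (fM p + 2 * fM p ^ 2) ≤
      1 / 2 * (Real.log (Real.log N) + 5) + 1 / 2 := by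
    rw [Finset.sum_add_distrib]
    have e1 : ∑ p ∈ N.primesLE, fM p = 1 / 2 * ∑ p ∈ N.primesLE, (1 : ℝ) / p := by
      rw [Finset.mul_sum]
      refine Finset.sum_congr rfl fun p hp => ?_
      rw [fM_prime (Nat.mem_primesLE.1 hp).2]
      ring
    have e2 : ∑ p ∈ N.primesLE, 2 * fM p ^ 2 ≤ 1 / 2 := by
      calc ∑ p ∈ N.primesLE, 2 * fM p ^ 2
          = ∑ p ∈ N.primesLE, 1 / 2 * ((1 : ℝ) / (p : ℝ) ^ 2) := by
            refine Finset.sum_congr rfl fun p hp => ?_
            rw [fM_prime (Nat.mem_primesLE.1 hp).2, div_pow]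
            ring
        _ ≤ ∑ p ∈ Finset.Icc 2 N, 1 / 2 * ((1 : ℝ) / (p : ℝ) ^ 2) := by
            refine Finset.sum_le_sum_of_subset_of_nonneg (fun p hp => ?_) fun p _ _ => by positivity
            obtain ⟨h1, h2⟩ := Nat.mem_primesLE.1 hp
            exact Finset.mem_Icc.2 ⟨h2.two_le, h1⟩
        _ = 1 / 2 * ∑ p ∈ Finset.Icc 2 N, (1 : ℝ) / (p : ℝ) ^ 2 := by rw [Finset.mul_sum]
        _ ≤ 1 / 2 := by linarith [sq_sum N]
    rw [e1]
    have := Pool.Agent.Helper28.PC.sum_inv_le hN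
    linarith
  have hN1 : (1 : ℝ) < N := by exact_mod_cast (by omega : 1 < N)
  have hL : 0 < Real.log N := Real.log_pos hN1
  have h6 : Real.exp (1 / 2 * (Real.log (Real.log N) + 5) + 1 / 2) =
      Real.exp 3 * √(Real.log N) := by
    have : 1 / 2 * (Real.log (Real.log N) + 5) + 1 / 2 = 3 + 1 / 2 * Real.log (Real.log N) := by
      ring
    rw [this, Real.exp_add]
    congr 1
    rw [mul_comm, Real.exp_mul, Real.exp_log hL, Real.sqrt_eq_rpow]
  rw [← h6]
  exact h1.trans (h4.trans (Real.exp_le_exp.2 h5))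

end Pool.Agent.Helper24.HD
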